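import Mathlib

set_option autoImplicit false

/-!
# MP_1678b7_co: face vectors of flag complexes without a real-parameter representation

For every `d ≥ 5` and every `n ≥ d + 2` there is a flag complex of dimension `d - 1` with exactly
`n` vertices whose face vector has no real-parameter representation. The complex is the clique
complex of the complete graph on `d` vertices `0, …, d-1` and a complete bipartite graph with parts
`U`, `W` of nearly equal sizes, where the vertices of `U` are also adjacent to `0, 1` and those of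
`W` to `2, 3`.
-/

open Finset

namespace Pool.Agent.Results.MP_1678b7_co.EveryDimension

/-- A finite simplicial complex on vertices taken from `V`; it contains the empty face. -/
structure Cpx (V : Type) where
  faces : Finset (Finset V)
  empty_mem : ∅ ∈ faces
  down : ∀ F ∈ faces, ∀ G ⊆ F, G ∈ faces

/-- `Δ` is a flag complex: every set of vertices of `Δ` that are pairwise joined by edges of `Δ` is
a face. -/
def IsFlag {V : Type} [DecidableEq V] (Δ : Cpx V) : Prop :=
  ∀ F : Finset V, (∀ v ∈ F, {v} ∈ Δ.faces) → (∀ u ∈ F, ∀ v ∈ F, u ≠ v → {u, v} ∈ Δ.faces) →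
    F ∈ Δ.faces

/-- The number of faces with exactly `j` vertices. -/
def c {V : Type} (Δ : Cpx V) (j : ℕ) : ℕ := (Δ.faces.filter fun F => F.card = j).card

/-- `Δ` has dimension `d - 1`: the largest faces have `d` vertices. -/
def HasDim {V : Type} (Δ : Cpx V) (d : ℕ) : Prop :=
  (∃ F ∈ Δ.faces, F.card = d) ∧ ∀ F ∈ Δ.faces, F.card ≤ d

/-- Nonnegative reals `a j k = a_j^k`, `1 ≤ j ≤ k ≤ d`, satisfying conditions 1, 2 and 3. In condition 1
the sum runs over the sets `S = {i_1 < ... < i_j}` contained in `{1, ..., d}`, and `S.sup id = i_j` is the largest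
element of `S`. -/
def Represents (d : ℕ) (c : ℕ → ℕ) (a : ℕ → ℕ → ℝ) : Prop :=
  (∀ j k, 1 ≤ j → j ≤ k → k ≤ d → 0 ≤ a j k) ∧
  (∀ j, 1 ≤ j → j ≤ d →
    (c j : ℝ) = ∑ S ∈ powersetCard j (Icc 1 d), ∏ i ∈ S, a i (S.sup id)) ∧
  (∀ i j k, 1 ≤ i → i < j → j ≤ k → k ≤ d → a j k ≤ a i k) ∧
  (∀ j i k, 1 ≤ j → j ≤ i → i < k → k ≤ d → a j k ≤ a j i)

/-! ### Sums over sets -/

/-- the product of a set -/
noncomputable def f (a : ℕ → ℕ → ℝ) (S : Finset ℕ) : ℝ := ∏ i ∈ S, a i (S.sup id)

theorem le_sup_id {S : Finset ℕ} {i : ℕ} (hi : i ∈ S) : i ≤ S.sup id := Finset.le_sup (f := id) hi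

theorem sup_id_le {S : Finset ℕ} {d : ℕ} (hS : S ⊆ Icc 1 d) : S.sup id ≤ d :=
  Finset.sup_le fun i hi => (mem_Icc.1 (hS hi)).2

theorem sup_Icc {d : ℕ} (hd : 1 ≤ d) : (Icc 1 d).sup id = d :=
  le_antisymm (sup_id_le (Subset.refl _)) (le_sup_id (mem_Icc.2 ⟨hd, le_rfl⟩))

/-- if the upper layers are one, so are the products of the sets reaching them -/
theorem f_one {a : ℕ → ℕ → ℝ} {d m : ℕ} (h : ∀ k, m < k → k ≤ d → ∀ i, 1 ≤ i → i ≤ k → a i k = 1)
    {S : Finset ℕ} (hS : S ⊆ Icc 1 d) (hm : ¬ S ⊆ Icc 1 m) : f a S = 1 := by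
  obtain ⟨v, hv, hvm⟩ := Finset.not_subset.1 hm
  have hv1 := mem_Icc.1 (hS hv)
  rw [mem_Icc] at hvm
  have h1 : m < S.sup id := by
    have := le_sup_id hv
    omega
  refine Finset.prod_eq_one fun i hi => ?_
  exact h _ h1 (sup_id_le hS) i (mem_Icc.1 (hS hi)).1 (le_sup_id hi)

theorem split {a : ℕ → ℕ → ℝ} {d m : ℕ} (hm : m ≤ d)
    (h : ∀ k, m < k → k ≤ d → ∀ i, 1 ≤ i → i ≤ k → a i k = 1) (j : ℕ) :
    ∑ S ∈ powersetCard j (Icc 1 d), f a S =
      ∑ S ∈ powersetCard j (Icc 1 m), f a S + ((d.choose j : ℝ) - (m.choose j : ℝ)) := by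
  have hsub : powersetCard j (Icc 1 m) ⊆ powersetCard j (Icc 1 d) :=
    powersetCard_mono (Icc_subset_Icc le_rfl hm)
  rw [← Finset.sum_sdiff hsub, add_comm]
  congr 1
  have h1 : ∀ S ∈ powersetCard j (Icc 1 d) \ powersetCard j (Icc 1 m), f a S = 1 := by
    intro S hS
    rw [mem_sdiff, mem_powersetCard, mem_powersetCard] at hS
    exact f_one h hS.1.1 fun hc => hS.2 ⟨hc, hS.1.2⟩
  rw [Finset.sum_congr rfl h1, Finset.sum_const, nsmul_eq_mul, mul_one, card_sdiff_of_subset hsub,
    card_powersetCard, card_powersetCard, Nat.card_Icc, Nat.card_Icc]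
  rw [Nat.cast_sub (by simpa using Nat.choose_le_choose j hm)]
  simp

theorem ps_self (d : ℕ) : powersetCard d (Icc 1 d) = {Icc 1 d} := by
  have h := powersetCard_self (Icc 1 d)
  rwa [Nat.card_Icc, Nat.add_sub_cancel] at h

/-- the top layer is one -/
theorem top_one {a : ℕ → ℕ → ℝ} {d : ℕ} {c : ℕ → ℕ} (hd : 2 ≤ d) (h : Represents d c a)
    (hcd : c d = 1) (hcd' : c (d - 1) = d) (i : ℕ) (hi1 : 1 ≤ i) (hid : i ≤ d) : a i d = 1 := by
  obtain ⟨hn, hc, h2, h3⟩ := h
  have e1 := hc d (by omega) le_rfl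
  rw [ps_self, sum_singleton, sup_Icc (by omega), hcd, Nat.cast_one] at e1
  have hpos : ∀ i ∈ Icc 1 d, 0 < a i d := by
    intro i hi
    have hi' := mem_Icc.1 hi
    refine lt_of_le_of_ne (hn i d hi'.1 hi'.2 le_rfl) fun h0 => ?_
    rw [Finset.prod_eq_zero hi h0.symm] at e1
    exact one_ne_zero e1
  have e2 := hc (d - 1) (by omega) (by omega)
  rw [hcd'] at e2
  -- the sum over the sets without one element
  have e3 : ∑ i ∈ Icc 1 d, (a i d)⁻¹ ≤ d := by
    have hinj : Set.InjOn (fun i => (Icc 1 d).erase i) (Icc 1 d : Finset ℕ) := by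
      intro x hx y hy hxy
      by_contra hne
      have : x ∈ (Icc 1 d).erase y := mem_erase.2 ⟨hne, hx⟩
      have hxy' : (Icc 1 d).erase x = (Icc 1 d).erase y := hxy
      rw [← hxy'] at this
      exact (mem_erase.1 this).1 rfl
    calc ∑ i ∈ Icc 1 d, (a i d)⁻¹ ≤ ∑ i ∈ Icc 1 d, f a ((Icc 1 d).erase i) := by
          refine Finset.sum_le_sum fun i hi => ?_
          have h4 : (a i d)⁻¹ = ∏ j ∈ (Icc 1 d).erase i, a j d := by
            exact inv_eq_of_mul_eq_one_right
              ((Finset.mul_prod_erase (Icc 1 d) (fun j => a j d) hi).trans e1.symm)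
          rw [h4]
          unfold f
          refine Finset.prod_le_prod (fun j hj => (hpos j (mem_of_mem_erase hj)).le) fun j hj => ?_
          have hj' := mem_Icc.1 (mem_of_mem_erase hj)
          have h5 : ((Icc 1 d).erase i).sup id ≤ d := sup_id_le (erase_subset _ _)
          have h6 := le_sup_id hj
          rcases Nat.lt_or_ge (((Icc 1 d).erase i).sup id) d with h7 | h7
          · exact h3 j _ d hj'.1 h6 h7 le_rfl
          · rw [le_antisymm h5 h7]
      _ = ∑ S ∈ (Icc 1 d).image (fun i => (Icc 1 d).erase i), f a S := by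
          rw [Finset.sum_image hinj]
      _ ≤ ∑ S ∈ powersetCard (d - 1) (Icc 1 d), f a S := by
          refine Finset.sum_le_sum_of_subset_of_nonneg ?_ ?_
          · intro S hS
            obtain ⟨i, hi, rfl⟩ := mem_image.1 hS
            rw [mem_powersetCard, card_erase_of_mem hi]
            exact ⟨erase_subset _ _, by simp⟩
          · intro S hS _
            rw [mem_powersetCard] at hS
            refine Finset.prod_nonneg fun j hj => ?_
            exact hn _ _ (mem_Icc.1 (hS.1 hj)).1 (le_sup_id hj) (sup_id_le hS.1)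
      _ = d := e2.symm
  have e4 : ∑ i ∈ Icc 1 d, Real.log ((a i d)⁻¹) = 0 := by
    rw [← Real.log_prod (fun j hj => (inv_pos.2 (hpos j hj)).ne'), Finset.prod_inv_distrib, ← e1]
    simp
  by_contra hne
  have h8 : ∑ i ∈ Icc 1 d, Real.log ((a i d)⁻¹) < ∑ i ∈ Icc 1 d, ((a i d)⁻¹ - 1) := by
    refine Finset.sum_lt_sum (fun j hj => Real.log_le_sub_one_of_pos (inv_pos.2 (hpos j hj)))
      ⟨i, mem_Icc.2 ⟨hi1, hid⟩, ?_⟩
    refine Real.log_lt_sub_one_of_pos (inv_pos.2 (hpos i (mem_Icc.2 ⟨hi1, hid⟩))) fun h => ?_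
    exact hne (inv_eq_one.1 h)
  rw [e4, Finset.sum_sub_distrib] at h8
  simp only [sum_const, Nat.card_Icc, nsmul_eq_mul, mul_one] at h8
  have h9 : ((d + 1 - 1 : ℕ) : ℝ) = d := by simp
  rw [h9] at h8
  linarith

/-- all layers from the fourth on are one -/
theorem layers_one {a : ℕ → ℕ → ℝ} {d : ℕ} {c : ℕ → ℕ} (hd : 5 ≤ d) (h : Represents d c a)
    (hcj : ∀ j, 4 ≤ j → j ≤ d → c j = d.choose j) (k : ℕ) (hk : 4 ≤ k) (hkd : k ≤ d) :
    ∀ i, 1 ≤ i → i ≤ k → a i k = 1 := by
  have main : ∀ t, ∀ k, 4 ≤ k → k ≤ d → d ≤ k + t → ∀ i, 1 ≤ i → i ≤ k → a i k = 1 := by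
    intro t
    induction t with
    | zero =>
      intro k _ hkd hdk i hi1 hik
      have : k = d := by omega
      subst this
      refine top_one (by omega) h (by rw [hcj k (by omega) le_rfl, Nat.choose_self]) ?_ i hi1 hik
      rw [hcj (k - 1) (by omega) (by omega)]
      have h1 : k.choose (k - 1) = k.choose 1 := by
        rw [← Nat.choose_symm (show 1 ≤ k by omega)]
      rw [h1, Nat.choose_one_right]
    | succ t ih =>
      intro k hk hkd hdk i hi1 hik
      rcases Nat.lt_or_ge d (k + t + 1) with hlt | hge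
      · exact ih k hk hkd (by omega) i hi1 hik
      · have hkd' : k < d := by omega
        have hup : ∀ l, k < l → l ≤ d → ∀ i, 1 ≤ i → i ≤ l → a i l = 1 := fun l hl1 hl2 =>
          ih l (by omega) hl2 (by omega)
        obtain ⟨hn, hc, h2, h3⟩ := h
        have e1 := hc k (by omega) hkd
        have e2 := split (a := a) hkd hup k
        rw [ps_self, sum_singleton, Nat.choose_self] at e2
        have e3 : f a (Icc 1 k) = 1 := by
          have : (c k : ℝ) = ∑ S ∈ powersetCard k (Icc 1 d), f a S := e1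
          rw [hcj k hk hkd, e2] at this
          push_cast at this
          linarith
        unfold f at e3
        rw [sup_Icc (by omega)] at e3
        have hge1 : ∀ j ∈ Icc 1 k, 1 ≤ a j k := by
          intro j hj
          have hj' := mem_Icc.1 hj
          have h4 := hup (k + 1) (by omega) (by omega) j hj'.1 (by omega)
          rw [← h4]
          exact h3 j k (k + 1) hj'.1 hj'.2 (by omega) (by omega)
        have hi : i ∈ Icc 1 k := mem_Icc.2 ⟨hi1, hik⟩
        rw [← Finset.mul_prod_erase _ _ hi] at e3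
        have h5 : (1 : ℝ) ≤ ∏ j ∈ (Icc 1 k).erase i, a j k := by
          calc (1 : ℝ) = ∏ j ∈ (Icc 1 k).erase i, (1 : ℝ) := by simp
            _ ≤ _ := Finset.prod_le_prod (fun _ _ => zero_le_one) fun j hj =>
              hge1 j (mem_of_mem_erase hj)
        have h6 := hge1 i hi
        nlinarith
  exact main d k hk hkd (by omega)

theorem arith (s w t1 t2 t3 y z x : ℝ) (h3 : t1 * t2 * t3 = s + 1)
    (h2 : 3 + 2 * s + w ≤ y * z + (t1 + t2) * t3) (h1 : x + z + t3 = 3 + s)
    (hs : (3 ≤ s ∧ s ^ 2 - 1 ≤ 4 * w) ∨ (s = 2 ∧ w = 1))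
    (g3 : 1 ≤ t3) (g2 : t3 ≤ t2) (g1 : t2 ≤ t1) (gy : t1 ≤ y) (gx : y ≤ x) : False := by
  have b1 : y * z ≤ y * (3 + s - t3 - y) := by
    apply mul_le_mul_of_nonneg_left _ (by linarith)
    linarith
  have b2 : 0 ≤ (y - t1) * (t3 - 1) := mul_nonneg (by linarith) (by linarith)
  obtain ⟨Q, hQ⟩ : ∃ Q, Q = t2 * t3 := ⟨_, rfl⟩
  have hQ1 : 1 ≤ Q := by rw [hQ]; nlinarith
  have hP1 : 1 ≤ t1 := by linarith
  have hPQ : t1 * Q = s + 1 := by rw [hQ, ← h3]; ring
  have b3 : 3 + 2 * s + w ≤ y * (2 + s - y) + t1 + Q := by rw [hQ]; nlinarith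
  have b4 : t1 + Q ≤ s + 2 := by nlinarith
  rcases hs with ⟨hs, hw⟩ | ⟨hs, hw⟩
  · have b5 : (t1 - 1) * (Q - 1) ≤ 1 / 4 := by nlinarith [sq_nonneg (y - (s + 2) / 2)]
    have hQt : Q ≤ t1 ^ 2 := by rw [hQ]; nlinarith
    -- `t1` is the large factor
    have hQ54 : Q ≤ 5 / 4 := by
      by_contra hc
      push Not at hc
      rcases le_or_gt t1 2 with h | h
      · -- then `Q ≥ 2`, so `t1 ≤ 5 / 4`
        have hQ2 : 2 ≤ Q := by nlinarith
        have ht : t1 ≤ 5 / 4 := by nlinarith
        have : Q ≤ 25 / 16 := by nlinarith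
        linarith
      · nlinarith
    have ht1 : 4 / 5 * (s + 1) ≤ t1 := by nlinarith
    have hy : 7 / 10 ≤ y - (s + 2) / 2 := by linarith
    nlinarith [mul_self_nonneg (y - (s + 2) / 2 - 7 / 10)]
  · subst hs
    subst hw
    have b5 : (t1 - 1) * (Q - 1) ≤ 0 := by nlinarith [sq_nonneg (y - 2)]
    have hQt : Q ≤ t1 ^ 2 := by rw [hQ]; nlinarith
    rcases le_or_gt t1 (5 / 4) with h | h
    · have : Q ≤ 25 / 16 := by nlinarith
      nlinarith
    · have hQ' : Q = 1 := by
        refine le_antisymm ?_ hQ1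
        by_contra hc
        push Not at hc
        have := mul_pos (sub_pos.2 (show 1 < t1 by linarith)) (sub_pos.2 hc)
        linarith
      rw [hQ', mul_one] at hPQ
      have hy3 : 3 ≤ y := by linarith
      have h5 := mul_nonneg (sub_nonneg.2 hy3) (show 0 ≤ y - 1 by linarith)
      clear hQ1 b5 hQt b4 b2 b1 h3 h2 h1 hQ
      nlinarith

theorem ps1 : powersetCard 1 (Icc 1 3) = ({{1}, {2}, {3}} : Finset (Finset ℕ)) := by decide

theorem ps2 : powersetCard 2 (Icc 1 3) = ({{1, 2}, {1, 3}, {2, 3}} : Finset (Finset ℕ)) := by decide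

theorem ps3 : powersetCard 3 (Icc 1 3) = ({{1, 2, 3}} : Finset (Finset ℕ)) := by decide

theorem no_rep {c : ℕ → ℕ} {a : ℕ → ℕ → ℝ} {d : ℕ} (hd : 5 ≤ d) (s w : ℕ)
    (hcj : ∀ j, 4 ≤ j → j ≤ d → c j = d.choose j) (hc3 : c 3 = d.choose 3 + s)
    (hc2 : d.choose 2 + 2 * s + w ≤ c 2) (hc1 : c 1 = d + s)
    (hs : (3 ≤ s ∧ s ^ 2 ≤ 4 * w + 1) ∨ (s = 2 ∧ w = 1)) : ¬ Represents d c a := by
  intro h
  have hl := layers_one hd h hcj
  have hup : ∀ k, 3 < k → k ≤ d → ∀ i, 1 ≤ i → i ≤ k → a i k = 1 := fun k hk hkd =>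
    hl k (by omega) hkd
  have e1 := split (a := a) (show 3 ≤ d by omega) hup 1
  have e2 := split (a := a) (show 3 ≤ d by omega) hup 2
  have e3 := split (a := a) (show 3 ≤ d by omega) hup 3
  obtain ⟨hn, hc, h2, h3⟩ := h
  have f1 : (c 1 : ℝ) = ∑ S ∈ powersetCard 1 (Icc 1 d), f a S := hc 1 le_rfl (by omega)
  have f2 : (c 2 : ℝ) = ∑ S ∈ powersetCard 2 (Icc 1 d), f a S := hc 2 (by omega) (by omega)
  have f3 : (c 3 : ℝ) = ∑ S ∈ powersetCard 3 (Icc 1 d), f a S := hc 3 (by omega) (by omega)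
  rw [e1, ps1] at f1
  rw [e2, ps2] at f2
  rw [e3, ps3] at f3
  unfold f at f1 f2 f3
  simp (decide := true) [Finset.sum_insert, Finset.prod_insert, Finset.sup_insert] at f1 f2 f3
  rw [hc1] at f1
  rw [hc3] at f3
  have g2 : ((d.choose 2 + 2 * s + w : ℕ) : ℝ) ≤ c 2 := by exact_mod_cast hc2
  push_cast at f1 f3 g2
  have k34 : 1 ≤ a 3 3 := by
    rw [← hup 4 (by omega) (by omega) 3 (by omega) (by omega)]
    exact h3 3 3 4 (by omega) le_rfl (by omega) (by omega)
  refine arith s w (a 1 3) (a 2 3) (a 3 3) (a 1 2) (a 2 2) (a 1 1) ?_ ?_ ?_ ?_ k34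
    (h2 2 3 3 (by omega) (by omega) le_rfl (by omega))
    (h2 1 2 3 (by omega) (by omega) (by omega) (by omega))
    (h3 1 2 3 (by omega) (by omega) (by omega) (by omega))
    (h3 1 1 2 (by omega) (by omega) (by omega) (by omega))
  · linear_combination -f3
  · linarith
  · linear_combination -f1
  · rcases hs with ⟨h4, h5⟩ | ⟨h4, h5⟩
    · left
      have h4' : (3 : ℝ) ≤ s := by exact_mod_cast h4
      have h5' : ((s : ℝ)) ^ 2 ≤ 4 * w + 1 := by exact_mod_cast h5
      exact ⟨h4', by linarith⟩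
    · right
      subst h4
      subst h5
      norm_num

/-! ### The complexes -/

/-- the adjacency relation: `0, …, d-1` are pairwise adjacent; the vertices of `U = [d, d+p)` are
adjacent to `0`, `1` and to those of `W = [d+p, d+p+q)`; the vertices of `W` also to `2`, `3` -/
def adj (d p q u v : ℕ) : Prop :=
  (u < d ∧ v < d) ∨
  ((d ≤ u ∧ u < d + p) ∧ (v = 0 ∨ v = 1)) ∨ ((d ≤ v ∧ v < d + p) ∧ (u = 0 ∨ u = 1)) ∨
  ((d + p ≤ u ∧ u < d + p + q) ∧ (v = 2 ∨ v = 3)) ∨
  ((d + p ≤ v ∧ v < d + p + q) ∧ (u = 2 ∨ u = 3)) ∨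
  ((d ≤ u ∧ u < d + p) ∧ (d + p ≤ v ∧ v < d + p + q)) ∨
  ((d ≤ v ∧ v < d + p) ∧ (d + p ≤ u ∧ u < d + p + q))

open Classical in
/-- the clique complex -/
noncomputable def K (d p q : ℕ) : Cpx ℕ where
  faces := (range (d + p + q)).powerset.filter
    fun F => ∀ u ∈ F, ∀ v ∈ F, u ≠ v → adj d p q u v
  empty_mem := by simp
  down := by
    intro F hF G hG
    rw [mem_filter, mem_powerset] at hF ⊢
    exact ⟨hG.trans hF.1, fun u hu v hv => hF.2 u (hG hu) v (hG hv)⟩

theorem mem_K {d p q : ℕ} {F : Finset ℕ} : F ∈ (K d p q).faces ↔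
    F ⊆ range (d + p + q) ∧ ∀ u ∈ F, ∀ v ∈ F, u ≠ v → adj d p q u v := by
  unfold K
  simp only [mem_filter, mem_powerset]

theorem flag_K (d p q : ℕ) : IsFlag (K d p q) := by
  intro F h1 h2
  rw [mem_K]
  refine ⟨fun v hv => ?_, fun u hu v hv huv => ?_⟩
  · have := (mem_K.1 (h1 v hv)).1
    exact this (mem_singleton_self v)
  · exact (mem_K.1 (h2 u hu v hv huv)).2 u (by simp) v (by simp) huv

/-- the subsets of the simplex are faces -/
theorem mem_simplex {d p q : ℕ} {F : Finset ℕ} (hF : F ⊆ range d) : F ∈ (K d p q).faces := by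
  rw [mem_K]
  refine ⟨hF.trans (range_subset_range.2 (by omega)), fun u hu v hv _ => Or.inl ⟨?_, ?_⟩⟩
  · exact mem_range.1 (hF hu)
  · exact mem_range.1 (hF hv)

/-- the other faces are small -/
theorem other {d p q : ℕ} (hd : 4 ≤ d) {F : Finset ℕ} (hF : F ∈ (K d p q).faces) {v : ℕ}
    (hv : v ∈ F) (hvd : d ≤ v) :
    (v < d + p ∧ F ⊆ {v, 0, 1}) ∨ (d + p ≤ v ∧ v < d + p + q ∧ F ⊆ {v, 2, 3}) ∨ F.card ≤ 2 := by
  obtain ⟨h1, h2⟩ := mem_K.1 hF
  have hvn := mem_range.1 (h1 hv)
  by_cases hU : v < d + p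
  · by_cases hw : ∃ w ∈ F, d + p ≤ w
    · obtain ⟨w, hw, hwd⟩ := hw
      right; right
      have : F ⊆ {v, w} := by
        intro x hx
        rw [mem_insert, mem_singleton]
        by_contra hc
        push Not at hc
        have g1 := h2 x hx v hv hc.1
        have g2 := h2 x hx w hw hc.2
        unfold adj at g1 g2
        omega
      exact (card_le_card this).trans card_le_two
    · left
      refine ⟨hU, fun x hx => ?_⟩
      rw [mem_insert, mem_insert, mem_singleton]
      by_contra hc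
      push Not at hc
      have g1 := h2 x hx v hv hc.1
      have g2 : ¬ d + p ≤ x := fun h => hw ⟨x, hx, h⟩
      unfold adj at g1
      omega
  · by_cases hw : ∃ w ∈ F, d ≤ w ∧ w < d + p
    · obtain ⟨w, hw, hwd⟩ := hw
      right; right
      have : F ⊆ {v, w} := by
        intro x hx
        rw [mem_insert, mem_singleton]
        by_contra hc
        push Not at hc
        have g1 := h2 x hx v hv hc.1
        have g2 := h2 x hx w hw hc.2
        unfold adj at g1 g2
        omega
      exact (card_le_card this).trans card_le_two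
    · right; left
      refine ⟨by omega, hvn, fun x hx => ?_⟩
      rw [mem_insert, mem_insert, mem_singleton]
      by_contra hc
      push Not at hc
      have g1 := h2 x hx v hv hc.1
      have g2 : ¬ (d ≤ x ∧ x < d + p) := fun h => hw ⟨x, hx, h⟩
      unfold adj at g1
      omega

theorem other_card {d p q : ℕ} (hd : 4 ≤ d) {F : Finset ℕ} (hF : F ∈ (K d p q).faces)
    (h : ¬ F ⊆ range d) : F.card ≤ 3 := by
  obtain ⟨v, hv, hvd⟩ := Finset.not_subset.1 h
  rw [mem_range, not_lt] at hvd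
  rcases other hd hF hv hvd with ⟨_, h1⟩ | ⟨_, _, h1⟩ | h1
  · exact (card_le_card h1).trans card_le_three
  · exact (card_le_card h1).trans card_le_three
  · omega

theorem c_big {d p q : ℕ} (hd : 4 ≤ d) (j : ℕ) (hj : 4 ≤ j) : c (K d p q) j = d.choose j := by
  unfold c
  have : (K d p q).faces.filter (fun F => F.card = j) = powersetCard j (range d) := by
    ext F
    rw [mem_filter, mem_powersetCard]
    constructor
    · rintro ⟨h1, h2⟩
      refine ⟨?_, h2⟩
      by_contra hc
      have := other_card hd h1 hc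
      omega
    · rintro ⟨h1, h2⟩
      exact ⟨mem_simplex h1, h2⟩
  rw [this, card_powersetCard, card_range]

theorem c_one (d p q : ℕ) : c (K d p q) 1 = d + p + q := by
  unfold c
  have : (K d p q).faces.filter (fun F => F.card = 1) = powersetCard 1 (range (d + p + q)) := by
    ext F
    rw [mem_filter, mem_powersetCard]
    constructor
    · rintro ⟨h1, h2⟩
      exact ⟨(mem_K.1 h1).1, h2⟩
    · rintro ⟨h1, h2⟩
      refine ⟨mem_K.2 ⟨h1, ?_⟩, h2⟩
      obtain ⟨x, rfl⟩ := card_eq_one.1 h2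
      intro u hu v hv huv
      rw [mem_singleton] at hu hv
      exact absurd (hu.trans hv.symm) huv
  rw [this, card_powersetCard, card_range, Nat.choose_one_right]

theorem dim_K {d p q : ℕ} (hd : 4 ≤ d) : HasDim (K d p q) d := by
  refine ⟨⟨range d, mem_simplex (Subset.refl _), card_range d⟩, fun F hF => ?_⟩
  by_cases h : F ⊆ range d
  · have := card_le_card h
    rwa [card_range] at this
  · have := other_card hd hF h
    omega

/-- the triangle at an outer vertex -/
def tri (d p v : ℕ) : Finset ℕ := if v < d + p then {v, 0, 1} else {v, 2, 3}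

theorem tri_mem {d p q v : ℕ} (hd : 4 ≤ d) (h1 : d ≤ v) (h2 : v < d + p + q) :
    tri d p v ∈ (K d p q).faces := by
  rw [mem_K]
  unfold tri
  split_ifs with h
  · constructor
    · intro x hx
      simp only [mem_insert, mem_singleton] at hx
      rw [mem_range]
      omega
    · intro x hx y hy hxy
      simp only [mem_insert, mem_singleton] at hx hy
      unfold adj
      omega
  · constructor
    · intro x hx
      simp only [mem_insert, mem_singleton] at hx
      rw [mem_range]
      omega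
    · intro x hx y hy hxy
      simp only [mem_insert, mem_singleton] at hx hy
      unfold adj
      omega

theorem tri_card {d p v : ℕ} (hd : 4 ≤ d) (h1 : d ≤ v) : (tri d p v).card = 3 := by
  unfold tri
  split_ifs
  · exact card_eq_three.2 ⟨v, 0, 1, by omega, by omega, by omega, rfl⟩
  · exact card_eq_three.2 ⟨v, 2, 3, by omega, by omega, by omega, rfl⟩

theorem mem_tri {d p v x : ℕ} (hd : 4 ≤ d) (hx : x ∈ tri d p v) (hxd : d ≤ x) : x = v := by
  unfold tri at hx
  split_ifs at hx
  all_goals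
    simp only [mem_insert, mem_singleton] at hx
    omega

theorem self_tri (d p v : ℕ) : v ∈ tri d p v := by
  unfold tri
  split_ifs <;> simp

theorem c_three {d p q : ℕ} (hd : 4 ≤ d) : c (K d p q) 3 = d.choose 3 + (p + q) := by
  unfold c
  have h1 : (K d p q).faces.filter (fun F => F.card = 3) =
      powersetCard 3 (range d) ∪ (Ico d (d + p + q)).image (tri d p) := by
    ext F
    rw [mem_filter, mem_union, mem_powersetCard, mem_image]
    constructor
    · rintro ⟨h1, h2⟩
      by_cases h : F ⊆ range d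
      · exact Or.inl ⟨h, h2⟩
      · right
        obtain ⟨v, hv, hvd⟩ := Finset.not_subset.1 h
        rw [mem_range, not_lt] at hvd
        have hvn := mem_range.1 ((mem_K.1 h1).1 hv)
        refine ⟨v, mem_Ico.2 ⟨hvd, hvn⟩, ?_⟩
        symm
        refine eq_of_subset_of_card_le ?_ (by rw [tri_card hd hvd, h2])
        unfold tri
        rcases other hd h1 hv hvd with ⟨g1, g2⟩ | ⟨g1, _, g2⟩ | g1
        · rwa [if_pos g1]
        · rwa [if_neg (by omega)]
        · omega
    · rintro (⟨h1, h2⟩ | ⟨v, hv, rfl⟩)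
      · exact ⟨mem_simplex h1, h2⟩
      · have hv' := mem_Ico.1 hv
        exact ⟨tri_mem hd hv'.1 hv'.2, tri_card hd hv'.1⟩
  rw [h1, card_union_of_disjoint, card_powersetCard, card_range, card_image_of_injOn, Nat.card_Ico]
  · omega
  · intro x hx y hy hxy
    have hx' := mem_Ico.1 (mem_coe.1 hx)
    have h2 : x ∈ tri d p y := by
      have h3 : tri d p x = tri d p y := hxy
      rw [← h3]
      exact self_tri d p x
    exact mem_tri hd h2 hx'.1
  · rw [Finset.disjoint_left]
    intro F h2 h3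
    obtain ⟨v, hv, rfl⟩ := mem_image.1 h3
    have h4 := mem_range.1 ((mem_powersetCard.1 h2).1 (self_tri d p v))
    have hv' := mem_Ico.1 hv
    omega

/-- the two neighbours of an outer vertex in the simplex -/
def nb (d p v : ℕ) (b : Bool) : ℕ := if v < d + p then (if b then 0 else 1) else (if b then 2 else 3)

theorem nb_lt {d p v : ℕ} (hd : 4 ≤ d) (b : Bool) : nb d p v b < d := by
  unfold nb
  split_ifs <;> omega

theorem c_two {d p q : ℕ} (hd : 4 ≤ d) :
    d.choose 2 + 2 * (p + q) + p * q ≤ c (K d p q) 2 := by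
  unfold c
  have hsub : (powersetCard 2 (range d) ∪
      ((Ico d (d + p + q)) ×ˢ (univ : Finset Bool)).image (fun x => {x.1, nb d p x.1 x.2})) ∪
      ((Ico d (d + p)) ×ˢ (Ico (d + p) (d + p + q))).image (fun x => {x.1, x.2}) ⊆
      (K d p q).faces.filter (fun F => F.card = 2) := by
    intro F hF
    rw [mem_filter]
    rcases mem_union.1 hF with hF | hF
    · rcases mem_union.1 hF with hF | hF
      · rw [mem_powersetCard] at hF
        exact ⟨mem_simplex hF.1, hF.2⟩
      · obtain ⟨⟨v, b⟩, hv, rfl⟩ := mem_image.1 hF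
        have hv' := mem_Ico.1 (mem_product.1 hv).1
        have hn := nb_lt (p := p) (v := v) hd b
        simp only at hv' ⊢
        refine ⟨mem_K.2 ⟨?_, ?_⟩, card_pair (by omega)⟩
        · intro x hx
          rw [mem_insert, mem_singleton] at hx
          rw [mem_range]
          omega
        · intro x hx y hy hxy
          rw [mem_insert, mem_singleton] at hx hy
          have hnb : (v < d + p ∧ (nb d p v b = 0 ∨ nb d p v b = 1)) ∨
              (d + p ≤ v ∧ (nb d p v b = 2 ∨ nb d p v b = 3)) := by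
            rcases Nat.lt_or_ge v (d + p) with h1 | h1
            · left
              refine ⟨h1, ?_⟩
              unfold nb
              cases b <;> simp [h1]
            · right
              refine ⟨h1, ?_⟩
              unfold nb
              cases b <;> simp [not_lt.2 h1]
          generalize nb d p v b = u at hx hy hn hnb
          clear hF hv
          unfold adj
          omega
    · obtain ⟨⟨v, w⟩, hv, rfl⟩ := mem_image.1 hF
      have hv' := mem_Ico.1 (mem_product.1 hv).1
      have hw' := mem_Ico.1 (mem_product.1 hv).2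
      simp only at hv' hw' ⊢
      refine ⟨mem_K.2 ⟨?_, ?_⟩, card_pair (by omega)⟩
      · intro x hx
        rw [mem_insert, mem_singleton] at hx
        rw [mem_range]
        omega
      · intro x hx y hy hxy
        rw [mem_insert, mem_singleton] at hx hy
        unfold adj
        omega
  refine le_trans (le_of_eq ?_) (card_le_card hsub)
  rw [card_union_of_disjoint, card_union_of_disjoint, card_powersetCard, card_range,
    card_image_of_injOn, card_image_of_injOn, card_product, card_product, Nat.card_Ico,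
    Nat.card_Ico, Nat.card_Ico, card_univ, Fintype.card_bool]
  · have e1 : d + p + q - d = p + q := by omega
    have e2 : d + p - d = p := by omega
    have e3 : d + p + q - (d + p) = q := by omega
    rw [e1, e2, e3]
    ring
  · rintro ⟨v, w⟩ hv ⟨v', w'⟩ hv2 h
    have a1 := mem_Ico.1 (mem_product.1 (mem_coe.1 hv)).1
    have a2 := mem_Ico.1 (mem_product.1 (mem_coe.1 hv)).2
    have a3 := mem_Ico.1 (mem_product.1 (mem_coe.1 hv2)).1
    have a4 := mem_Ico.1 (mem_product.1 (mem_coe.1 hv2)).2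
    simp only at a1 a2 a3 a4 h
    have b1 : v ∈ ({v', w'} : Finset ℕ) := by rw [← h]; simp
    have b2 : w ∈ ({v', w'} : Finset ℕ) := by rw [← h]; simp
    rw [mem_insert, mem_singleton] at b1 b2
    rw [Prod.mk.injEq]
    omega
  · rintro ⟨v, b⟩ hv ⟨v', b'⟩ hv2 h
    have a1 := mem_Ico.1 (mem_product.1 (mem_coe.1 hv)).1
    have a3 := mem_Ico.1 (mem_product.1 (mem_coe.1 hv2)).1
    simp only at a1 a3 h
    have n1 := nb_lt (p := p) (v := v) hd b
    have n2 := nb_lt (p := p) (v := v') hd b'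
    have b1 : v ∈ ({v', nb d p v' b'} : Finset ℕ) := by rw [← h]; simp
    rw [mem_insert, mem_singleton] at b1
    have hvv : v = v' := by omega
    subst hvv
    have b2 : nb d p v b ∈ ({v, nb d p v b'} : Finset ℕ) := by rw [← h]; simp
    rw [mem_insert, mem_singleton] at b2
    have hb : nb d p v b = nb d p v b' := by omega
    rw [Prod.mk.injEq]
    refine ⟨rfl, ?_⟩
    have hne : nb d p v false ≠ nb d p v true := by
      unfold nb
      rcases Nat.lt_or_ge v (d + p) with h1 | h1
      · simp [h1]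
      · simp [not_lt.2 h1]
    cases b <;> cases b' <;> first | rfl | exact absurd hb hne | exact absurd hb.symm hne
  · rw [Finset.disjoint_left]
    intro F h2 h3
    obtain ⟨⟨v, b⟩, hv, rfl⟩ := mem_image.1 h3
    have a1 := mem_Ico.1 (mem_product.1 hv).1
    have h4 := mem_range.1 ((mem_powersetCard.1 h2).1 (mem_insert_self _ _))
    simp only at a1 h4
    omega
  · rw [Finset.disjoint_left]
    intro F h2 h3
    obtain ⟨⟨v, w⟩, hv, rfl⟩ := mem_image.1 h3
    have a1 := mem_Ico.1 (mem_product.1 hv).1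
    have a2 := mem_Ico.1 (mem_product.1 hv).2
    simp only at a1 a2
    rcases mem_union.1 h2 with h2 | h2
    · have h4 := mem_range.1 ((mem_powersetCard.1 h2).1 (mem_insert_self _ _))
      simp only at h4
      omega
    · obtain ⟨⟨v', b⟩, hv2, h5⟩ := mem_image.1 h2
      have a3 := mem_Ico.1 (mem_product.1 hv2).1
      simp only at a3 h5
      have n1 := nb_lt (p := p) (v := v') hd b
      have b1 : v ∈ ({v', nb d p v' b} : Finset ℕ) := by rw [h5]; simp
      have b2 : w ∈ ({v', nb d p v' b} : Finset ℕ) := by rw [h5]; simp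
      rw [mem_insert, mem_singleton] at b1 b2
      omega

/-- For every dimension `d - 1 ≥ 4` and every number `n ≥ d + 2` of vertices there is a flag complex
of dimension `d - 1` with `n` vertices whose face numbers are not represented by any matrix. -/
theorem exists_bad (d n : ℕ) (hd : 5 ≤ d) (hn : d + 2 ≤ n) :
    ∃ Δ : Cpx ℕ, IsFlag Δ ∧ HasDim Δ d ∧ c Δ 1 = n ∧ ¬ ∃ a, Represents d (c Δ) a := by
  obtain ⟨s, rfl⟩ : ∃ s, n = d + s := ⟨n - d, by omega⟩
  have hpq : s / 2 + (s - s / 2) = s := by omega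
  have h1 := c_one d (s / 2) (s - s / 2)
  have h2 := c_two (p := s / 2) (q := s - s / 2) (show 4 ≤ d by omega)
  have h3 := c_three (p := s / 2) (q := s - s / 2) (show 4 ≤ d by omega)
  rw [hpq] at h2 h3
  refine ⟨K d (s / 2) (s - s / 2), flag_K _ _ _, dim_K (by omega), by omega, ?_⟩
  rintro ⟨a, ha⟩
  refine no_rep hd s (s / 2 * (s - s / 2))
    (fun j hj _ => c_big (by omega) j hj) h3 h2 (by omega) ?_ ha
  rcases Nat.lt_or_ge s 3 with h4 | h4
  · right
    have : s = 2 := by omega
    subst this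
    exact ⟨rfl, rfl⟩
  · left
    refine ⟨h4, ?_⟩
    rcases Nat.even_or_odd' s with ⟨t, rfl | rfl⟩
    · have e1 : 2 * t / 2 = t := by omega
      have e2 : 2 * t - t = t := by omega
      rw [e1, e2]
      nlinarith
    · have e1 : (2 * t + 1) / 2 = t := by omega
      have e2 : 2 * t + 1 - t = t + 1 := by omega
      rw [e1, e2]
      nlinarith

/-! ### At most `d + 1` vertices -/

theorem small_rep1 (d : ℕ) (c : ℕ → ℕ) (h : ∀ j, 1 ≤ j → j ≤ d → c j = d.choose j) :
    Represents d c (fun _ _ => 1) := by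
  refine ⟨fun _ _ _ _ _ => zero_le_one, fun j h1 h2 => ?_, fun _ _ _ _ _ _ _ => le_rfl,
    fun _ _ _ _ _ _ _ => le_rfl⟩
  simp [h j h1 h2]

theorem small_count (d m j : ℕ) (hm : m + 1 ≤ d) (hj : 1 ≤ j) :
    #{S ∈ powersetCard j (Icc 1 d) | 1 ∈ S ∧ S.sup id ≤ m + 1} = m.choose (j - 1) := by
  have h1 : #(powersetCard (j - 1) (Icc 2 (m + 1))) = m.choose (j - 1) := by
    rw [card_powersetCard, Nat.card_Icc]
    congr 1
  rw [← h1]
  refine card_nbij' (fun S => S.erase 1) (fun T => insert 1 T) ?_ ?_ ?_ ?_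
  · intro S hS
    simp only [coe_filter, mem_powersetCard, Set.mem_ofPred_eq, Finset.sup_le_iff, id] at hS
    obtain ⟨⟨h2, h3⟩, h4, h5⟩ := hS
    simp only [mem_coe, mem_powersetCard]
    refine ⟨fun x hx => ?_, by rw [card_erase_of_mem h4, h3]⟩
    rw [mem_erase] at hx
    have h6 := mem_Icc.1 (h2 hx.2)
    exact mem_Icc.2 ⟨by omega, h5 x hx.2⟩
  · intro T hT
    simp only [mem_coe, mem_powersetCard] at hT
    simp only [coe_filter, mem_powersetCard, Set.mem_ofPred_eq, Finset.sup_le_iff, id]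
    have h2 : 1 ∉ T := fun h => by have := mem_Icc.1 (hT.1 h); omega
    refine ⟨⟨fun x hx => ?_, by rw [card_insert_of_notMem h2, hT.2]; omega⟩, mem_insert_self _ _,
      fun x hx => ?_⟩
    · rcases mem_insert.1 hx with rfl | hx
      · exact mem_Icc.2 ⟨le_rfl, by omega⟩
      · have := mem_Icc.1 (hT.1 hx)
        exact mem_Icc.2 ⟨by omega, by omega⟩
    · rcases mem_insert.1 hx with rfl | hx
      · omega
      · exact (mem_Icc.1 (hT.1 hx)).2
  · intro S hS
    simp only [coe_filter, Set.mem_ofPred_eq] at hS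
    exact insert_erase hS.2.1
  · intro T hT
    simp only [mem_coe, mem_powersetCard] at hT
    have h2 : 1 ∉ T := fun h => by have := mem_Icc.1 (hT.1 h); omega
    exact erase_insert h2

theorem small_rep2 (d m : ℕ) (hm : m + 1 ≤ d) (c : ℕ → ℕ)
    (h : ∀ j, 1 ≤ j → j ≤ d → c j = d.choose j + m.choose (j - 1)) :
    Represents d c (fun j k => if j = 1 ∧ k ≤ m + 1 then 2 else 1) := by
  refine ⟨fun j k _ _ _ => by dsimp only; split_ifs <;> norm_num, fun j h1 h2 => ?_, ?_, ?_⟩
  · have h3 : ∀ S ∈ powersetCard j (Icc 1 d),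
        (∏ i ∈ S, if i = 1 ∧ S.sup id ≤ m + 1 then (2 : ℝ) else 1) =
          1 + if 1 ∈ S ∧ S.sup id ≤ m + 1 then 1 else 0 := by
      intro S _
      by_cases hk : S.sup id ≤ m + 1
      · simp only [hk, and_true]
        rw [prod_ite_eq' S 1 (fun _ => (2 : ℝ))]
        split_ifs <;> norm_num
      · simp [hk]
    rw [sum_congr rfl h3, sum_add_distrib, sum_boole, small_count d m j hm h1, h j h1 h2]
    simp
  · intro i j k h1 h2 h3 h4
    dsimp only
    rw [if_neg (by omega)]
    split_ifs <;> norm_num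
  · intro j i k h1 h2 h3 h4
    dsimp only
    split_ifs with h5 h6 h6
    · exact le_rfl
    · exact absurd ⟨h5.1, by omega⟩ h6
    · norm_num
    · exact le_rfl

/-- the vertices -/
def vx {V : Type} [DecidableEq V] (Δ : Cpx V) : Finset V := Δ.faces.biUnion id

theorem mem_vx {V : Type} [DecidableEq V] (Δ : Cpx V) (v : V) : v ∈ vx Δ ↔ {v} ∈ Δ.faces := by
  unfold vx
  rw [mem_biUnion]
  constructor
  · rintro ⟨F, hF, hv⟩
    exact Δ.down F hF _ (singleton_subset_iff.2 hv)
  · intro h
    exact ⟨_, h, mem_singleton_self v⟩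

theorem card_vx {V : Type} [DecidableEq V] (Δ : Cpx V) : c Δ 1 = (vx Δ).card := by
  unfold c
  have h : Δ.faces.filter (fun F => F.card = 1) = (vx Δ).image (fun v => ({v} : Finset V)) := by
    ext F
    rw [mem_filter, mem_image]
    constructor
    · rintro ⟨h1, h2⟩
      obtain ⟨v, rfl⟩ := card_eq_one.1 h2
      exact ⟨v, (mem_vx Δ v).2 h1, rfl⟩
    · rintro ⟨v, hv, rfl⟩
      exact ⟨(mem_vx Δ v).1 hv, card_singleton v⟩
  rw [h, card_image_of_injective _ singleton_injective]

theorem small {V : Type} [DecidableEq V] (d : ℕ) (hd : 1 ≤ d) (Δ : Cpx V) (hF : IsFlag Δ)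
    (hD : HasDim Δ d) (hn : c Δ 1 ≤ d + 1) : ∃ a, Represents d (c Δ) a := by
  obtain ⟨⟨F, hFf, hFc⟩, hmax⟩ := hD
  rw [card_vx] at hn
  have hFX : F ⊆ vx Δ := fun v hv => (mem_vx Δ v).2 (Δ.down F hFf _ (singleton_subset_iff.2 hv))
  have hsub : ∀ G ∈ Δ.faces, G ⊆ vx Δ :=
    fun G hG v hv => (mem_vx Δ v).2 (Δ.down G hG _ (singleton_subset_iff.2 hv))
  by_cases hX : F = vx Δ
  · refine ⟨_, small_rep1 d _ fun j _ _ => ?_⟩
    have : Δ.faces.filter (fun G => G.card = j) = powersetCard j F := by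
      ext G
      rw [mem_filter, mem_powersetCard]
      exact ⟨fun h => ⟨hX ▸ hsub G h.1, h.2⟩, fun h => ⟨Δ.down F hFf G h.1, h.2⟩⟩
    unfold c
    rw [this, card_powersetCard, hFc]
  · have hss : F ⊂ vx Δ := lt_of_le_of_ne hFX hX
    obtain ⟨v, hvX, hvF⟩ := exists_of_ssubset hss
    have hXe : insert v F = vx Δ := by
      apply eq_of_subset_of_card_le (insert_subset hvX hFX)
      rw [card_insert_of_notMem hvF, hFc]
      exact hn
    have hv1 : {v} ∈ Δ.faces := (mem_vx Δ v).1 hvX
    set M := F.filter (fun u => ({u, v} : Finset V) ∈ Δ.faces) with hM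
    have key : ∀ T ⊆ M, insert v T ∈ Δ.faces := by
      intro T hT
      apply hF
      · intro u hu
        rcases mem_insert.1 hu with rfl | hu
        · exact hv1
        · exact Δ.down F hFf _ (singleton_subset_iff.2 (mem_filter.1 (hT hu)).1)
      · intro u hu w hw huw
        rcases mem_insert.1 hu with hu' | hu' <;> rcases mem_insert.1 hw with hw' | hw'
        · exact absurd (hu'.trans hw'.symm) huw
        · rw [pair_comm, hu']; exact (mem_filter.1 (hT hw')).2
        · rw [hw']; exact (mem_filter.1 (hT hu')).2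
        · exact Δ.down F hFf _ (insert_subset (mem_filter.1 (hT hu')).1
            (singleton_subset_iff.2 (mem_filter.1 (hT hw')).1))
    have hMF : M ⊆ F := filter_subset _ _
    have hvM : v ∉ M := fun h => hvF (hMF h)
    have hm : M.card + 1 ≤ d := by
      have h1 := hmax _ (key M le_rfl)
      rwa [card_insert_of_notMem hvM] at h1
    refine ⟨_, small_rep2 d M.card hm _ fun j hj _ => ?_⟩
    have : Δ.faces.filter (fun G => G.card = j) =
        powersetCard j F ∪ (powersetCard (j - 1) M).image (insert v) := by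
      ext G
      rw [mem_filter, mem_union, mem_powersetCard, mem_image]
      constructor
      · rintro ⟨h1, h2⟩
        by_cases hvG : v ∈ G
        · refine Or.inr ⟨G.erase v, mem_powersetCard.2 ⟨fun u hu => ?_, ?_⟩, insert_erase hvG⟩
          · rw [mem_erase] at hu
            have h3 : u ∈ F := by
              have h4 := hsub G h1 hu.2
              rw [← hXe] at h4
              exact (mem_insert.1 h4).resolve_left hu.1
            exact mem_filter.2 ⟨h3, Δ.down G h1 _ (insert_subset hu.2 (singleton_subset_iff.2 hvG))⟩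
          · rw [card_erase_of_mem hvG, h2]
        · refine Or.inl ⟨fun u hu => ?_, h2⟩
          have h4 := hsub G h1 hu
          rw [← hXe] at h4
          exact (mem_insert.1 h4).resolve_left (fun h => hvG (h ▸ hu))
      · rintro (⟨h1, h2⟩ | ⟨T, hT, rfl⟩)
        · exact ⟨Δ.down F hFf G h1, h2⟩
        · rw [mem_powersetCard] at hT
          refine ⟨key T hT.1, ?_⟩
          rw [card_insert_of_notMem (fun h => hvM (hT.1 h)), hT.2]
          omega
    unfold c
    rw [this, card_union_of_disjoint, card_powersetCard, hFc, card_image_of_injOn,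
      card_powersetCard]
    · intro S hS T hT h
      have h1 : v ∉ S := fun h => hvM ((mem_powersetCard.1 hS).1 h)
      have h2 : v ∉ T := fun h => hvM ((mem_powersetCard.1 hT).1 h)
      have h3 : insert v S = insert v T := h
      rw [← erase_insert h1, h3, erase_insert h2]
    · rw [disjoint_left]
      intro G h1 h2
      obtain ⟨T, _, rfl⟩ := mem_image.1 h2
      exact hvF ((mem_powersetCard.1 h1).1 (mem_insert_self _ _))

/-! ### Dimension at most one -/

theorem mantel {V : Type} [DecidableEq V] (Δ : Cpx V) (hF : IsFlag Δ) (hmax : ∀ F ∈ Δ.faces, F.card ≤ 2) :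
    4 * c Δ 2 ≤ c Δ 1 ^ 2 := by
  classical
  let G : SimpleGraph {v // v ∈ vx Δ} :=
    { Adj := fun u v => u ≠ v ∧ ({u.1, v.1} : Finset V) ∈ Δ.faces
      symm := ⟨fun u v h => ⟨h.1.symm, by rw [pair_comm]; exact h.2⟩⟩
      loopless := ⟨fun u h => h.1 rfl⟩ }
  have h3 : G.CliqueFree (2 + 1) := by
    intro s hs
    have h1 : s.map (Function.Embedding.subtype _) ∈ Δ.faces := by
      apply hF
      · intro v hv
        obtain ⟨u, _, rfl⟩ := mem_map.1 hv
        exact (mem_vx Δ _).1 u.2
      · intro v hv w hw hvw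
        obtain ⟨u, hu, rfl⟩ := mem_map.1 hv
        obtain ⟨x, hx, rfl⟩ := mem_map.1 hw
        exact (hs.isClique hu hx (fun h => hvw (by rw [h]))).2
    have h2 := hmax _ h1
    rw [card_map, hs.card_eq] at h2
    omega
  have h4 := h3.card_edgeFinset_le
  dsimp only at h4
  have h5 : c Δ 2 ≤ G.edgeFinset.card := by
    unfold c
    have h6 : Δ.faces.filter (fun F => F.card = 2) ⊆
        G.edgeFinset.image (fun e => (e.map Subtype.val).toFinset) := by
      intro F hFF
      rw [mem_filter] at hFF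
      obtain ⟨u, v, huv, rfl⟩ := card_eq_two.1 hFF.2
      have hu : u ∈ vx Δ := (mem_vx Δ u).2 (Δ.down _ hFF.1 _ (by simp))
      have hv : v ∈ vx Δ := (mem_vx Δ v).2 (Δ.down _ hFF.1 _ (by simp))
      rw [mem_image]
      refine ⟨s(⟨u, hu⟩, ⟨v, hv⟩), ?_, ?_⟩
      · rw [SimpleGraph.mem_edgeFinset, SimpleGraph.mem_edgeSet]
        exact ⟨fun h => huv (congrArg Subtype.val h), hFF.1⟩
      · ext x
        simp [Sym2.mem_toFinset]
    exact (card_le_card h6).trans card_image_le
  rw [card_vx]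
  have h7 : Fintype.card {v // v ∈ vx Δ} = (vx Δ).card := Fintype.card_coe _
  rw [h7] at h4
  generalize (vx Δ).card = n at *
  rcases Nat.even_or_odd' n with ⟨k, rfl | rfl⟩
  · have h8 : (2 * k) % 2 = 0 := by omega
    rw [h8] at h4
    have h9 : ((2 * k) ^ 2 - 0 ^ 2) * (2 - 1) / (2 * 2) + Nat.choose 0 2 = k ^ 2 := by
      have : ((2 * k) ^ 2 - 0 ^ 2) * (2 - 1) = k ^ 2 * 4 := by ring_nf; omega
      rw [this]
      simp
    nlinarith
  · have h8 : (2 * k + 1) % 2 = 1 := by omega
    rw [h8] at h4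
    have h9 : ((2 * k + 1) ^ 2 - 1 ^ 2) * (2 - 1) / (2 * 2) + Nat.choose 1 2 = k ^ 2 + k := by
      have : ((2 * k + 1) ^ 2 - 1 ^ 2) * (2 - 1) = (k ^ 2 + k) * 4 := by
        have : (2 * k + 1) ^ 2 = (k ^ 2 + k) * 4 + 1 := by ring
        rw [this]; simp
      rw [this]
      simp
    nlinarith

theorem dim_two {V : Type} [DecidableEq V] (d : ℕ) (hd : 1 ≤ d) (hd2 : d ≤ 2) (Δ : Cpx V)
    (hF : IsFlag Δ) (hD : HasDim Δ d) : ∃ a, Represents d (c Δ) a := by
  obtain rfl | rfl : d = 1 ∨ d = 2 := by omega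
  · refine ⟨fun _ _ => c Δ 1, fun _ _ _ _ _ => Nat.cast_nonneg _, fun j h1 h2 => ?_,
      fun _ _ _ _ _ _ _ => le_rfl, fun _ _ _ _ _ _ _ => le_rfl⟩
    obtain rfl : j = 1 := by omega
    have h : powersetCard 1 (Icc 1 1) = {({1} : Finset ℕ)} := by decide
    rw [h]
    simp
  · have hm := mantel Δ hF hD.2
    set t : ℝ := Real.sqrt (c Δ 2) with ht
    have ht0 : 0 ≤ t := Real.sqrt_nonneg _
    have ht2 : t * t = c Δ 2 := Real.mul_self_sqrt (Nat.cast_nonneg _)
    have h2t : 2 * t ≤ c Δ 1 := by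
      have h1 : (4 : ℝ) * c Δ 2 ≤ (c Δ 1 : ℝ) ^ 2 := by exact_mod_cast hm
      have h2 : (0 : ℝ) ≤ c Δ 1 := Nat.cast_nonneg _
      nlinarith [mul_nonneg ht0 h2, sq_nonneg (2 * t - c Δ 1)]
    refine ⟨fun j k => if j = 1 ∧ k = 1 then c Δ 1 - t else t, fun j k _ _ _ => ?_,
      fun j h1 h2 => ?_, fun i j k h1 h2 h3 h4 => ?_, fun j i k h1 h2 h3 h4 => ?_⟩
    · dsimp only
      split_ifs <;> linarith
    · obtain rfl | rfl : j = 1 ∨ j = 2 := by omega
      · have h : powersetCard 1 (Icc 1 2) = {({1} : Finset ℕ), {2}} := by decide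
        rw [h, sum_pair (by decide)]
        simp
      · have h : powersetCard 2 (Icc 1 2) = {({1, 2} : Finset ℕ)} := by decide
        have h' : (({1, 2} : Finset ℕ).sup id) = 2 := by decide
        rw [h, sum_singleton, h', prod_pair (by decide)]
        simp [ht2]
    · dsimp only
      obtain rfl : k = 2 := by omega
      simp
    · dsimp only
      obtain rfl : k = 2 := by omega
      obtain rfl : i = 1 := by omega
      obtain rfl : j = 1 := by omega
      simp
      linarith

/-- (1) For `d ≥ 5` and `n ≥ d + 2` there are flag complexes of dimension `d - 1` with `n` vertices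
without a representation; there is always a representation (2) with at most `d + 1` vertices and
(3) for `d ≤ 2`. -/
theorem result :
    -- (1) counterexamples
    (∀ d n : ℕ, 5 ≤ d → d + 2 ≤ n →
      ∃ Δ : Cpx ℕ, IsFlag Δ ∧ HasDim Δ d ∧ c Δ 1 = n ∧ ¬ ∃ a, Represents d (c Δ) a) ∧
    -- (2) at most `d + 1` vertices
    (∀ d : ℕ, 1 ≤ d → ∀ (V : Type) [DecidableEq V] (Δ : Cpx V), IsFlag Δ → HasDim Δ d →
      c Δ 1 ≤ d + 1 → ∃ a, Represents d (c Δ) a) ∧
    -- (3) dimension at most one
    (∀ d : ℕ, 1 ≤ d → d ≤ 2 → ∀ (V : Type) [DecidableEq V] (Δ : Cpx V), IsFlag Δ → HasDim Δ d →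
      ∃ a, Represents d (c Δ) a) ∧
    -- (4) the statement of the problem is false
    ¬ (∀ d : ℕ, 1 ≤ d → ∀ (V : Type) [DecidableEq V] (Δ : Cpx V), IsFlag Δ → HasDim Δ d →
      ∃ a, Represents d (c Δ) a) := by
  refine ⟨exists_bad, fun d hd V _ Δ h1 h2 h3 => small d hd Δ h1 h2 h3,
    fun d hd hd2 V _ Δ h1 h2 => dim_two d hd hd2 Δ h1 h2, fun h => ?_⟩
  obtain ⟨Δ, h1, h2, -, h4⟩ := exists_bad 5 7 le_rfl le_rfl
  exact h4 (h 5 (by norm_num) ℕ Δ h1 h2)

end Pool.Agent.Results.MP_1678b7_co.EveryDimension
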